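import Pool.Agent.L5helper21.UA.Y

/-!
# The twists with the primitive characters whose conductor is divisible by the level
-/

set_option autoImplicit false

open Complex Filter Topology Set UpperHalfPlane MatrixGroups CongruenceSubgroup ZMod

namespace Pool.Agent.L5helper21.UB

open Pool.Agent.TH940 (prim prim_deriv Fr prim_fricke mellin2 coeff_div_bd Th_tendsto prim_gauss)
open Pool.Agent.Y18.BSD
open Pool.Agent.K4H13.CV
open Pool.Agent.L5helper40.AF
open Pool.Agent.L5helper21.MS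
open Pool.Agent.W108.TW (Th)
open W388.LV (SF bf pet IsNewBasis)
open Pool.Agent.W440.TW (t_twist inv_primitive gauss_ne_zero gauss_conj hasSum_twist HasSum.congr_fun')

/-- modularity -/
theorem flip2 {N : ℕ} [NeZero N] (f : Cf2 N) {q : ℕ} [NeZero q] (hNq : N ∣ q) (u v b : ℤ)
    (hd : u * v + b * q = -1) (t : ℝ) (ht : 0 < t) (h1 : 0 < (1 / t) / q) (h2 : 0 < t / q) :
    f (W440.TW.pt ((u : ℝ) / q) ((1 / t) / q) h1) =
      -((t : ℂ) ^ 2) * f (W440.TW.pt ((v : ℝ) / q) (t / q) h2) := by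
  have hq : (q : ℂ) ≠ 0 := Nat.cast_ne_zero.2 (NeZero.ne q)
  let γ : SL(2, ℤ) := ⟨!![u, b; (q : ℤ), -v], by
    rw [Matrix.det_fin_two_of]; linarith⟩
  have hγ : γ ∈ Gamma0 N := by
    rw [Gamma0_mem]
    show (((q : ℕ) : ℤ) : ZMod N) = 0
    rw [ZMod.intCast_zmod_eq_zero_iff_dvd]
    exact Int.natCast_dvd_natCast.2 hNq
  set z := W440.TW.pt ((u : ℝ) / q) ((1 / t) / q) h1 with hz
  set z' := W440.TW.pt ((v : ℝ) / q) (t / q) h2 with hz'
  have htc : (t : ℂ) ≠ 0 := Complex.ofReal_ne_zero.2 ht.ne'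
  have hdc : (u : ℂ) * (v : ℂ) + (b : ℂ) * (q : ℂ) = -1 := by exact_mod_cast hd
  have hzc : (z : ℂ) = ((u : ℂ) + (1 / (t : ℂ)) * Complex.I) / q := by
    rw [hz, W440.TW.pt_coe]
    push_cast
    ring
  have hzc' : (z' : ℂ) = ((v : ℂ) + (t : ℂ) * Complex.I) / q := by
    rw [hz', W440.TW.pt_coe]
    push_cast
    ring
  have hD : denom (γ : GL (Fin 2) ℝ) z' = (t : ℂ) * Complex.I := by
    rw [ModularGroup.denom_apply]
    have : ((γ 1 0 : ℤ) : ℂ) * (z' : ℂ) + ((γ 1 1 : ℤ) : ℂ) = (q : ℂ) * z' - v := by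
      simp [γ]
      ring
    rw [this, hzc']
    field_simp
    ring
  have hnum : num (γ : GL (Fin 2) ℝ) z' = (u : ℂ) * z' + b := by
    simp [num, γ]
  have hact : ((γ • z' : ℍ) : ℂ) = num (γ : GL (Fin 2) ℝ) z' / denom (γ : GL (Fin 2) ℝ) z' := by
    rw [ModularGroup.sl_moeb]
    exact coe_smul_of_det_pos (by simp) z'
  have hzz : γ • z' = z := by
    apply UpperHalfPlane.ext
    rw [hact, hnum, hD, hzc, hzc']
    have hI : Complex.I * Complex.I = -1 := Complex.I_mul_I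
    rw [div_eq_div_iff (mul_ne_zero htc Complex.I_ne_zero) hq]
    field_simp
    linear_combination hdc - hI
  have e1 := SlashInvariantForm.slash_action_eqn_SL'' f hγ z'
  rw [hzz, hD] at e1
  rw [e1, mul_zpow, zpow_ofNat, zpow_ofNat, Complex.I_sq]
  ring

/-- the theta relation -/
theorem twist2 {N : ℕ} [NeZero N] (f : Cf2 N) (hreal : ∀ n, ((qExpansion 1 f).coeff n).im = 0)
    {q : ℕ} [NeZero q] (hNq : N ∣ q) (χ : DirichletCharacter ℂ q) (hχ : χ.IsPrimitive) :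
    ∃ w : ℂ, ‖w‖ = 1 ∧ ∀ t : ℝ, 0 < t →
      ∑' n : ℕ, χ (n : ZMod q) * (qExpansion 1 f).coeff n *
        (Real.exp (-(2 * Real.pi * n / q) / t) : ℂ) =
      w * (t : ℂ) ^ 2 * ∑' n : ℕ, (starRingEnd ℂ) (χ (n : ZMod q) * (qExpansion 1 f).coeff n) *
        (Real.exp (-(2 * Real.pi * n / q) * t) : ℂ) := by
  have hq : (0 : ℝ) < q := Nat.cast_pos.2 (Nat.pos_of_ne_zero (NeZero.ne q))
  have hχi := inv_primitive χ hχ
  set g := gaussSum χ (stdAddChar (N := q)) with hg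
  set g' := gaussSum χ⁻¹ (stdAddChar (N := q)) with hg'
  have hg0 : g ≠ 0 := gauss_ne_zero χ hχ
  have hg0' : g' ≠ 0 := gauss_ne_zero χ⁻¹ hχi
  have hgn : ‖g'‖ = ‖g‖ := gauss_conj χ
  refine ⟨-χ ((-1 : (ZMod q)ˣ) : ZMod q) * g / g', ?_, ?_⟩
  · rw [norm_div, norm_mul, norm_neg, χ.unit_norm_eq_one, hgn, one_mul,
      div_self (norm_ne_zero_iff.2 hg0)]
  intro t ht
  have h1 : 0 < (1 / t) / q := by positivity
  have h2 : 0 < t / q := by positivity
  have s1 := hasSum_twist f χ⁻¹ hχi (1 / t) h1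
  have s2 := hasSum_twist f χ hχ t h2
  rw [← hg'] at s1
  rw [← hg] at s2
  have key : (∑ u : (ZMod q)ˣ, χ⁻¹ (u : ZMod q) *
        f (W440.TW.pt ((((u : ZMod q).val : ℤ) : ℝ) / q) ((1 / t) / q) h1)) =
      -((t : ℂ) ^ 2) * χ ((-1 : (ZMod q)ˣ) : ZMod q) *
      (∑ u : (ZMod q)ˣ, χ (u : ZMod q) *
        f (W440.TW.pt ((((u : ZMod q).val : ℤ) : ℝ) / q) (t / q) h2)) := by
    rw [← Equiv.sum_comp ((Equiv.mulLeft (-1)).trans (Equiv.inv (ZMod q)ˣ))
      (fun u : (ZMod q)ˣ => χ (u : ZMod q) *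
        f (W440.TW.pt ((((u : ZMod q).val : ℤ) : ℝ) / q) (t / q) h2)), Finset.mul_sum]
    apply Finset.sum_congr rfl
    intro u _
    simp only [Equiv.trans_apply, Equiv.coe_mulLeft, Equiv.inv_apply]
    set v : (ZMod q)ˣ := (-1 * u)⁻¹ with hv
    have huv : u * v = -1 := by
      rw [hv, mul_inv_rev]
      rw [mul_inv_cancel_left]
      rw [show ((-1 : (ZMod q)ˣ))⁻¹ = -((1 : (ZMod q)ˣ)⁻¹) from inv_neg .., inv_one]
    have hdvd : (q : ℤ) ∣ (((u : ZMod q).val : ℤ) * ((v : ZMod q).val : ℤ) + 1) := by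
      rw [← ZMod.intCast_zmod_eq_zero_iff_dvd]
      push_cast
      rw [ZMod.natCast_zmod_val, ZMod.natCast_zmod_val, ← Units.val_mul, huv]
      simp
    obtain ⟨d, hd⟩ := hdvd
    rw [flip2 f hNq ((u : ZMod q).val : ℤ) ((v : ZMod q).val : ℤ) (-d) (by linarith) t ht h1 h2]
    have h5 : χ⁻¹ (u : ZMod q) = χ ((-1 : (ZMod q)ˣ) : ZMod q) * χ (v : ZMod q) := by
      rw [← map_mul, ← Units.val_mul, MulChar.inv_apply_eq_inv']
      have h6 : -1 * v = u⁻¹ := by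
        rw [hv, mul_inv_rev]
        rw [mul_comm u⁻¹, mul_inv_cancel_left]
      rw [h6]
      apply inv_eq_of_mul_eq_one_left
      rw [← map_mul, ← Units.val_mul, inv_mul_cancel, Units.val_one, map_one]
    rw [h5]
    ring
  rw [key] at s1
  set S2 := (∑ u : (ZMod q)ˣ, χ (u : ZMod q) *
        f (W440.TW.pt ((((u : ZMod q).val : ℤ) : ℝ) / q) (t / q) h2)) with hS2
  have r1 : HasSum (fun n : ℕ => χ (n : ZMod q) * (qExpansion 1 f).coeff n *
      (Real.exp (-(2 * Real.pi * n / q) / t) : ℂ))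
      (g'⁻¹ * (-((t : ℂ) ^ 2) * χ ((-1 : (ZMod q)ˣ) : ZMod q) * S2)) := by
    have := s1.mul_left g'⁻¹
    refine HasSum.congr_fun' this (fun n => ?_)
    rw [inv_mul_cancel_left₀ hg0', inv_inv]
    congr 4
    field_simp
  have r2 : HasSum (fun n : ℕ => (starRingEnd ℂ) (χ (n : ZMod q) * (qExpansion 1 f).coeff n) *
      (Real.exp (-(2 * Real.pi * n / q) * t) : ℂ)) (g⁻¹ * S2) := by
    have := s2.mul_left g⁻¹
    refine HasSum.congr_fun' this (fun n => ?_)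
    rw [inv_mul_cancel_left₀ hg0, map_mul]
    have h6 : (starRingEnd ℂ) (χ (n : ZMod q)) = χ⁻¹ (n : ZMod q) := MulChar.star_apply' χ _
    have h7 : (starRingEnd ℂ) ((qExpansion 1 f).coeff n) = (qExpansion 1 f).coeff n :=
      Complex.conj_eq_iff_im.2 (hreal n)
    rw [h6, h7]
    congr 4
    field_simp
  rw [r1.tsum_eq, r2.tsum_eq]
  field_simp

/-- the modular symbols and the central value -/
lemma link2 {N : ℕ} [NeZero N] (hN : N.Prime) (f : Cf2 N) {ε : ℝ} (hf : W388.IsNewf N 2 f ε)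
    (q : ℕ) [NeZero q] (χ : DirichletCharacter ℂ q) (hχ : χ.IsPrimitive) (F0 W : ℂ)
    (hF : ∀ X Y : ℝ, 0 < X → 0 < Y → X * Y = (q : ℝ) ^ 2 / (4 * Real.pi ^ 2) →
          F0 = ∑' n : ℕ, χ⁻¹ (n : ZMod q) * (qExpansion 1 f).coeff n / n *
              (Real.exp (-(n / X)) : ℂ) +
            W * ∑' n : ℕ, (starRingEnd ℂ) (χ⁻¹ (n : ZMod q) * (qExpansion 1 f).coeff n) / n *
              (Real.exp (-(n / Y)) : ℂ)) :
    gaussSum χ (stdAddChar (N := q)) * F0 =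
      ∑ u : (ZMod q)ˣ, χ (u : ZMod q) * ms f (((u : ZMod q).val : ℚ) / q) := by
  have hq0 : (0 : ℝ) < q := Nat.cast_pos.2 (Nat.pos_of_ne_zero (NeZero.ne q))
  have hpi := Real.pi_pos
  obtain ⟨C, hC0, hC⟩ := coeff_div_bd f
  have h1 : Tendsto (fun y : ℝ => ∑ u : (ZMod q)ˣ, χ (u : ZMod q) *
        prim f (((((u : ZMod q).val : ℤ)) : ℂ) / q + (y : ℂ) * Complex.I)) (𝓝[>] 0)
        (𝓝 (∑ u : (ZMod q)ˣ, χ (u : ZMod q) * ms f (((u : ZMod q).val : ℚ) / q))) := by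
    refine tendsto_finsetSum _ fun u _ => Tendsto.const_mul _ ?_
    have h2 := ms_tendsto hN hf (((u : ZMod q).val : ℚ) / q)
    push_cast at h2 ⊢
    exact h2
  set a : ℕ → ℂ := fun n => (starRingEnd ℂ) (χ⁻¹ (n : ZMod q) * (qExpansion 1 f).coeff n) / n with ha
  have ha0 : a 0 = 0 := by
    simp only [ha]
    rw [W388.coeff_zero f]; simp
  have hab : ∀ n : ℕ, 1 ≤ n → ‖a n‖ ≤ C * (n : ℝ) ^ (1 : ℝ) := by
    intro n hn
    have h3 := hC n hn (χ⁻¹ (n : ZMod q)) (DirichletCharacter.norm_le_one _ _)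
    refine le_trans (le_of_eq ?_) h3
    simp only [ha]
    rw [norm_div, RCLike.norm_conj, norm_mul, norm_mul, norm_div]
    ring
  have hT : Tendsto (fun y : ℝ => ((q : ℝ) ^ 2)⁻¹ * y⁻¹) (𝓝[>] 0) atTop :=
    (tendsto_inv_nhdsGT_zero).const_mul_atTop (by positivity)
  have h4 : Tendsto (fun y : ℝ => gaussSum χ (stdAddChar (N := q)) *
      (F0 - W * Th a (2 * Real.pi) (((q : ℝ) ^ 2)⁻¹ * y⁻¹))) (𝓝[>] 0)
      (𝓝 (gaussSum χ (stdAddChar (N := q)) * (F0 - W * 0))) :=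
    (((((Th_tendsto ha0 hab (by positivity)).comp hT).const_mul W).const_sub F0).const_mul _)
  rw [mul_zero, sub_zero] at h4
  refine tendsto_nhds_unique h4 (h1.congr' ?_)
  filter_upwards [self_mem_nhdsWithin] with y (hy : 0 < y)
  rw [prim_gauss f χ hχ hy]
  congr 1
  have h5 := hF (1 / (2 * Real.pi * y)) ((q : ℝ) ^ 2 * y / (2 * Real.pi)) (by positivity)
    (by positivity) (by field_simp; ring)
  rw [h5]
  have e1 : ∀ n : ℕ, Real.exp (-(2 * Real.pi * n * y)) =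
      Real.exp (-(n / (1 / (2 * Real.pi * y)))) := by
    intro n
    congr 1
    field_simp
  have e2 : Th a (2 * Real.pi) (((q : ℝ) ^ 2)⁻¹ * y⁻¹) = ∑' n : ℕ, (starRingEnd ℂ) (χ⁻¹ (n : ZMod q) *
      (qExpansion 1 f).coeff n) / n *
        (Real.exp (-(n / ((q : ℝ) ^ 2 * y / (2 * Real.pi)))) : ℂ) := by
    unfold Th
    refine tsum_congr fun n => ?_
    congr 3
    field_simp
  rw [e2]
  simp only [e1]
  ring

/-- the L-functions of the twists with the primitive characters, all conductors -/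
theorem exists_tw_all : ∃ K : ℝ, 0 < K ∧ ∀ (N : ℕ) [NeZero N], N.Prime → ∀ (f : Cf2 N) (ε : ℝ),
    W388.IsNewf N 2 f ε → ∀ (c : ℕ) [NeZero c] (χ : DirichletCharacter ℂ c), χ.IsPrimitive →
    ∃ L : ℂ → ℂ, Differentiable ℂ L ∧
      (∀ s : ℂ, 4 < s.re → L s = ∑' n : ℕ, χ (n : ZMod c) * (W388.lamf f n : ℂ) * (n : ℂ) ^ (-s)) ∧
      gaussSum χ⁻¹ (stdAddChar (N := c)) * L (1 / 2) =
        ∑ u : (ZMod c)ˣ, χ⁻¹ (u : ZMod c) * ms f (((u : ZMod c).val : ℚ) / c) ∧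
      ‖L (1 / 2)‖ ≤ K * (Real.sqrt N * c) ^ 16 := by
  obtain ⟨K₁, hK₁0, hK₁⟩ := exists_tw
  obtain ⟨K, hK0, hK⟩ := mellin2 2 1 (by norm_num) (by norm_num)
  refine ⟨max K₁ K, lt_max_of_lt_left hK₁0, ?_⟩
  intro N _ hN f ε hf c _ χ hχ
  rcases Nat.coprime_or_dvd_of_prime hN c with hco | hdvd
  · obtain ⟨L, h1, h2, h3, h4⟩ := hK₁ N hN f ε hf c χ hχ hco.symm
    refine ⟨L, h1, h2, ?_, h4.trans ?_⟩
    · rw [h3]
      refine Finset.sum_congr rfl fun u _ => ?_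
      rw [ms_eq_bv hN hf]
      have := den_ok hco.symm (dvd_refl c) ((u : ZMod c).val : ℤ)
      rwa [Int.cast_natCast] at this
    · exact mul_le_mul_of_nonneg_right (le_max_left _ _) (by positivity)
  · have hN1 : (1 : ℝ) ≤ N := by exact_mod_cast Nat.pos_of_ne_zero (NeZero.ne N)
    have hc1 : (1 : ℝ) ≤ c := by exact_mod_cast Nat.pos_of_ne_zero (NeZero.ne c)
    have hs1 : (1 : ℝ) ≤ Real.sqrt N := by rw [Real.one_le_sqrt]; exact hN1
    have hcoef := coef N hN f ε hf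
    obtain ⟨w', hw', hth⟩ := twist2 f hf.real hdvd χ hχ
    obtain ⟨F, hF1, hF2, hF3, hF4⟩ := hK (fun n => χ (n : ZMod c) * (qExpansion 1 f).coeff n)
      (c : ℝ) hc1 (by rw [W388.coeff_zero f, mul_zero])
      (fun n hn => by
        rw [norm_mul]
        have h1 := DirichletCharacter.norm_le_one χ (n : ZMod c)
        calc ‖χ (n : ZMod c)‖ * ‖(qExpansion 1 f).coeff n‖ ≤ 1 * ‖(qExpansion 1 f).coeff n‖ :=
              mul_le_mul_of_nonneg_right h1 (norm_nonneg _)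
          _ ≤ _ := by
              rw [one_mul, one_mul, show (2 : ℝ) = ((2 : ℕ) : ℝ) by norm_num, Real.rpow_natCast]
              exact hcoef n) w' hw' hth
    refine ⟨F, hF1, ?_, ?_, ?_⟩
    · intro s hs
      rw [hF2 s (by linarith)]
      refine tsum_congr fun n => ?_
      have hre : (((qExpansion 1 f).coeff n).re : ℂ) = (qExpansion 1 f).coeff n := by
        apply Complex.ext
        · rw [Complex.ofReal_re]
        · rw [Complex.ofReal_im]; exact (hf.real n).symm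
      rcases Nat.eq_zero_or_pos n with rfl | hn
      · unfold W388.lamf
        rw [W388.coeff_zero f]
        simp
      · have hn' : (0 : ℝ) < n := by exact_mod_cast hn
        have hnc : (n : ℂ) ≠ 0 := by exact_mod_cast hn.ne'
        unfold W388.lamf
        have e1 : ((((2 : ℤ) : ℝ) - 1) / 2) = 1 / 2 := by norm_num
        rw [e1, Complex.ofReal_div, hre, Complex.ofReal_cpow hn'.le, neg_add, Complex.cpow_add _ _ hnc]
        push_cast
        rw [Complex.cpow_neg (n : ℂ) (1 / 2)]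
        ring
    · exact link2 hN f hf c χ⁻¹ (inv_primitive χ hχ) (F (1 / 2)) w'
        (fun X Y hX hY hXY => by
          rw [inv_inv]
          exact hF3 X Y hX hY hXY)
    · refine (hF4 (1 / 2) (by simp)).trans ?_
      have h5 : (c : ℝ) ^ 16 ≤ (Real.sqrt N * c) ^ 16 := by
        refine pow_le_pow_left₀ (by linarith) ?_ 16
        nlinarith
      have h6 : (0 : ℝ) ≤ (c : ℝ) ^ 16 := by positivity
      calc K * (c : ℝ) ^ 16 ≤ max K₁ K * (c : ℝ) ^ 16 :=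
            mul_le_mul_of_nonneg_right (le_max_right _ _) h6
        _ ≤ _ := mul_le_mul_of_nonneg_left h5 (le_trans hK₁0.le (le_max_left _ _))

end Pool.Agent.L5helper21.UB
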