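import Pool.Agent.L5helper21.UB.Tw

/-!
# The sums of the modular symbols over the residue classes modulo the conductor, all conductors
-/

set_option autoImplicit false

open Complex Filter Topology Set UpperHalfPlane MatrixGroups CongruenceSubgroup ZMod

namespace Pool.Agent.L5helper21.UB

open Pool.Agent.TH940 (prim prim_deriv Fr prim_fricke mellin2)
open Pool.Agent.Y18.BSD
open Pool.Agent.K4H13.CV
open Pool.Agent.L5helper40.AF
open Pool.Agent.L5helper21.MS
open Pool.Agent.L5helper21.UA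
open W388.LV (SF bf pet IsNewBasis)
open Pool.Agent.W440.TW (t_twist inv_primitive gauss_ne_zero)

variable {N : ℕ} [NeZero N] {q : ℕ} [NeZero q]

omit [NeZero q] in
lemma ms_int (f : Cf2 N) (r : ℚ) (m : ℤ) : ms f (r + m) = ms f r := by
  unfold ms
  congr 1
  funext y
  rw [← prim_add_int f ((r : ℂ) + (y : ℂ) * Complex.I) m]
  congr 1
  push_cast
  ring

omit [NeZero q] in
/-- the values at two congruent numbers -/
lemma ms_congr (f : Cf2 N) {c : ℕ} (hc : c ≠ 0) {a b : ℤ} (h : (c : ℤ) ∣ a - b) :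
    ms f ((a : ℚ) / c) = ms f ((b : ℚ) / c) := by
  obtain ⟨k, hk⟩ := h
  have hc0 : (c : ℚ) ≠ 0 := by exact_mod_cast hc
  have : (a : ℚ) / c = (b : ℚ) / c + k := by
    have h1 : (a : ℚ) = b + c * k := by
      have : a = b + c * k := by linarith
      exact_mod_cast this
    rw [h1]
    field_simp
  rw [this, ms_int]

/-- the sum -/
noncomputable def us (χ : DirichletCharacter ℂ q) (c : ℕ) (f : Cf2 N) : ℂ :=
  ∑ a ∈ UA.RR c, (χ (lft q c a))⁻¹ * ms f ((a : ℚ) / c)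

lemma us_eq {c : ℕ} [NeZero c] (hcq : c ∣ q) (ψ : DirichletCharacter ℂ c) (f : Cf2 N) :
    us (DirichletCharacter.changeLevel hcq ψ) c f =
      ∑ u : (ZMod c)ˣ, ψ⁻¹ (u : ZMod c) * ms f (((u : ZMod c).val : ℚ) / c) := by
  unfold us
  symm
  refine Finset.sum_bij (fun (u : (ZMod c)ˣ) _ => (u : ZMod c).val) ?_ ?_ ?_ ?_
  · intro u _
    unfold UA.RR
    rw [Finset.mem_filter, Finset.mem_range]
    exact ⟨ZMod.val_lt _, ZMod.val_coe_unit_coprime u⟩
  · intro u _ v _ h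
    exact Units.ext (ZMod.val_injective c h)
  · intro a ha
    unfold UA.RR at ha
    rw [Finset.mem_filter, Finset.mem_range] at ha
    refine ⟨ZMod.unitOfCoprime a ha.2, Finset.mem_univ _, ?_⟩
    rw [ZMod.coe_unitOfCoprime, ZMod.val_natCast, Nat.mod_eq_of_lt ha.1]
  · intro u _
    have h1 := lft_spec q c (u : ZMod c).val hcq (ZMod.val_coe_unit_coprime u)
    have h2 : DirichletCharacter.changeLevel hcq ψ (lft q c (u : ZMod c).val) =
        ψ ((ZMod.unitsMap hcq (lft q c (u : ZMod c).val) : (ZMod c)ˣ) : ZMod c) := by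
      rw [DirichletCharacter.changeLevel_eq_cast_of_dvd, ZMod.unitsMap_val]
    rw [h2, h1, ZMod.natCast_zmod_val, inv_chi]

lemma us_conj' (hN : N.Prime) {c : ℕ} [NeZero c] (ψ : DirichletCharacter ℂ c) {f : Cf2 N}
    {ε : ℝ} (hf : W388.IsNewf N 2 f ε) :
    ∑ u : (ZMod c)ˣ, (ψ⁻¹)⁻¹ (u : ZMod c) * ms f (((u : ZMod c).val : ℚ) / c) =
      ψ ((-1 : (ZMod c)ˣ) : ZMod c) * (starRingEnd ℂ)
        (∑ u : (ZMod c)ˣ, ψ⁻¹ (u : ZMod c) * ms f (((u : ZMod c).val : ℚ) / c)) := by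
  rw [inv_inv, map_sum, Finset.mul_sum, ← Equiv.sum_comp (Equiv.neg (ZMod c)ˣ)]
  refine Finset.sum_congr rfl fun u _ => ?_
  rw [map_mul, inv_chi, chi_conj_inv, ← mul_assoc, ← chi_mul]
  have e2 : (-1 : (ZMod c)ˣ) * u = (Equiv.neg (ZMod c)ˣ) u := by simp
  rw [e2]
  congr 1
  rw [ms_conj hN hf]
  have e4 := ms_congr f (NeZero.ne c) (a := (((((Equiv.neg (ZMod c)ˣ) u : (ZMod c)ˣ) : ZMod c)).val : ℤ))
    (b := -((u : ZMod c).val : ℤ)) (by
      rw [← ZMod.intCast_zmod_eq_zero_iff_dvd]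
      push_cast
      rw [ZMod.natCast_zmod_val, ZMod.natCast_zmod_val]
      simp)
  push_cast at e4
  rw [e4]
  congr 1
  ring

/-- the vector of the values -/
noncomputable def uv (χ : DirichletCharacter ℂ q) (f : Cf2 N) : ℂ :=
  (co f 2 - 3) * us χ χ.conductor f

lemma uv_conj (hN : N.Prime) (χ : DirichletCharacter ℂ q) {f : Cf2 N}
    {ε : ℝ} (hf : W388.IsNewf N 2 f ε) :
    uv χ⁻¹ f = χ ((-1 : (ZMod q)ˣ) : ZMod q) * (starRingEnd ℂ) (uv χ f) := by
  haveI : NeZero χ.conductor := ⟨DirichletCharacter.conductor_ne_zero χ⟩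
  have hcq : χ.conductor ∣ q := DirichletCharacter.conductor_dvd_level χ
  have h0 : DirichletCharacter.changeLevel hcq χ.primitiveCharacter = χ :=
    DirichletCharacter.changeLevel_primitiveCharacter χ
  have h1 := us_eq hcq χ.primitiveCharacter f
  have h2 := us_eq hcq (χ.primitiveCharacter)⁻¹ f
  have h3 : DirichletCharacter.changeLevel hcq (χ.primitiveCharacter)⁻¹ = χ⁻¹ := by
    rw [map_inv, h0]
  rw [h0] at h1
  rw [h3] at h2
  have h4 := us_conj' hN χ.primitiveCharacter hf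
  have h5 : χ.primitiveCharacter ((-1 : (ZMod χ.conductor)ˣ) : ZMod χ.conductor) =
      χ ((-1 : (ZMod q)ˣ) : ZMod q) := by
    conv_rhs => rw [← h0]
    rw [DirichletCharacter.changeLevel_eq_cast_of_dvd]
    have h6 : ZMod.cast (((-1 : (ZMod q)ˣ) : ZMod q)) = (((-1 : (ZMod χ.conductor)ˣ)) : ZMod χ.conductor) := by
      rw [← ZMod.castHom_apply (R := ZMod χ.conductor) (h := hcq), Units.val_neg, Units.val_one, map_neg,
        map_one, Units.val_neg, Units.val_one]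
    rw [h6]
  have e3 : (starRingEnd ℂ) (co f 2 - 3) = co f 2 - 3 := by
    rw [map_sub, co_real hf 2, Complex.conj_ofReal]
    congr 1
    exact map_ofNat _ 3
  unfold uv
  rw [DirichletCharacter.conductor_inv, h2, h4, h1, h5, map_mul, e3]
  ring

open Classical in
/-- the values at the characters of a closed set -/
noncomputable def uy (Y : Set (DirichletCharacter ℂ q)) (χ : DirichletCharacter ℂ q) (f : Cf2 N) : ℂ :=
  if χ ∈ Y then uv χ f else 0

lemma uy_conj (hN : N.Prime) (Y : Set (DirichletCharacter ℂ q)) (hY : IsClosed Y)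
    (χ : DirichletCharacter ℂ q) {f : Cf2 N} {ε : ℝ} (hf : W388.IsNewf N 2 f ε) :
    uy Y χ⁻¹ f = χ ((-1 : (ZMod q)ˣ) : ZMod q) * (starRingEnd ℂ) (uy Y χ f) := by
  unfold uy
  by_cases h : χ ∈ Y
  · rw [if_pos h, if_pos ((hY.inv χ).2 h), uv_conj hN χ hf]
  · rw [if_neg h, if_neg (fun h' => h ((hY.inv χ).1 h')), map_zero, mul_zero]

/-- **the values are in the lattice** -/
theorem uy_mem (hN : N.Prime) (h2 : N ≠ 2)
    (X : Subgroup (DirichletCharacter ℂ q)) [Fintype X] (Y : Set (DirichletCharacter ℂ q))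
    (hY : IsClosed Y) {B : Finset (Cf2 N)} (sg : B → ℝ)
    (hsg : ∀ f : B, W388.IsNewf N 2 f.1 (sg f)) (t : B → ℝ) (ht : t ∈ TT sg) (g : (ZMod q)ˣ) :
    (fun f : B => (t f : ℂ) * ∑ χ : X, χ.1 g * uy Y χ.1 f.1) ∈ LL B := by
  classical
  choose m hm using fun (h : (ZMod q)ˣ) (c : ℕ) => sum_cond_closed X Y hY h c
  have hD : ∀ χ : X, χ.1.conductor ∈ q.divisors := fun χ =>
    Nat.mem_divisors.2 ⟨DirichletCharacter.conductor_dvd_level χ.1, NeZero.ne q⟩
  set M : ℚ →₀ ℤ := ∑ c ∈ q.divisors, ∑ a ∈ UA.RR c,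
    Finsupp.single ((a : ℚ) / c) (m (g * (lft q c a)⁻¹) c) with hM
  refine (congrArg (· ∈ LL B) ?_).mp (SS_mem hN h2 sg hsg t ht M)
  funext f
  congr 1
  have e1 : ∑ χ : X, χ.1 g * uy Y χ.1 f.1 = (co f.1 2 - 3) *
      ∑ χ : X, (if χ.1 ∈ Y then χ.1 g * us χ.1 χ.1.conductor f.1 else 0) := by
    rw [Finset.mul_sum]
    refine Finset.sum_congr rfl fun χ _ => ?_
    unfold uy uv
    by_cases h : χ.1 ∈ Y
    · rw [if_pos h, if_pos h]
      ring
    · rw [if_neg h, if_neg h]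
      ring
  rw [e1]
  congr 1
  have e2 : ∀ χ : X, (if χ.1 ∈ Y then χ.1 g * us χ.1 χ.1.conductor f.1 else 0) =
      ∑ c ∈ q.divisors, ∑ a ∈ UA.RR c,
      (if χ.1.conductor = c ∧ χ.1 ∈ Y then χ.1 ((g * (lft q c a)⁻¹ : (ZMod q)ˣ) : ZMod q) else 0) *
        ms f.1 ((a : ℚ) / c) := by
    intro χ
    by_cases h : χ.1 ∈ Y
    · rw [if_pos h, Finset.sum_eq_single χ.1.conductor]
      · unfold us
        rw [Finset.mul_sum]
        refine Finset.sum_congr rfl fun a _ => ?_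
        rw [if_pos ⟨rfl, h⟩, chi_mul, chi_inv_unit]
        ring
      · intro c _ hc
        refine Finset.sum_eq_zero fun a _ => ?_
        rw [if_neg (fun h' => hc h'.1.symm), zero_mul]
      · intro h'
        exact absurd (hD χ) h'
    · rw [if_neg h]
      refine (Finset.sum_eq_zero fun c _ => Finset.sum_eq_zero fun a _ => ?_).symm
      rw [if_neg (fun h' => h h'.2), zero_mul]
  simp only [e2]
  rw [Finset.sum_comm, hM, SS_finsum]
  refine Finset.sum_congr rfl fun c hc => ?_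
  rw [Finset.sum_comm, SS_finsum]
  refine Finset.sum_congr rfl fun a ha => ?_
  rw [SS_single, ← Finset.sum_mul, hm]

/-- **the central values** -/
theorem uv_val : ∃ K : ℝ, 0 < K ∧ ∀ (N q : ℕ) [NeZero N] [NeZero q], N.Prime → N ≠ 2 →
    ∀ (χ : DirichletCharacter ℂ q) (f : Cf2 N) (ε : ℝ),
    W388.IsNewf N 2 f ε → ∃ L : ℂ → ℂ, IsLtw f χ L ∧
      ‖us χ χ.conductor f‖ = Real.sqrt χ.conductor * ‖L (1 / 2)‖ ∧
      ‖L (1 / 2)‖ ≤ K * ((N : ℝ) * q) ^ 16 := by
  obtain ⟨K, hK0, hK⟩ := exists_tw_all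
  refine ⟨K, hK0, ?_⟩
  intro N q _ _ hN h2 χ f ε hf
  have hN3 := three_le hN h2
  have hcq : χ.conductor ∣ q := DirichletCharacter.conductor_dvd_level χ
  haveI : NeZero χ.conductor := ⟨DirichletCharacter.conductor_ne_zero χ⟩
  have hcle : (χ.conductor : ℝ) ≤ q := by
    exact_mod_cast Nat.le_of_dvd (Nat.pos_of_ne_zero (NeZero.ne q)) hcq
  have hp := DirichletCharacter.primitiveCharacter_isPrimitive χ
  obtain ⟨L, hL1, hL2, hL3, hL4⟩ := hK N hN f ε hf χ.conductor χ.primitiveCharacter hp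
  refine ⟨L, ⟨hL1, hL2⟩, ?_, ?_⟩
  · have h1 := us_eq hcq χ.primitiveCharacter f
    rw [DirichletCharacter.changeLevel_primitiveCharacter χ, ← hL3] at h1
    rw [h1, norm_mul]
    congr 1
    have h3 := H385.GaussAux.norm_sq_gaussSum (inv_primitive _ hp)
    rw [← h3, Real.sqrt_sq (norm_nonneg _)]
  · refine hL4.trans ?_
    have h3 : Real.sqrt N ≤ N := by
      rw [Real.sqrt_le_left (by linarith)]
      nlinarith
    gcongr

end Pool.Agent.L5helper21.UB
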